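import Mathlib

/-!
The random substitution `a ↦ {abaa, aaba}`, `b ↦ {abab, baba}`, its subshift and the automorphism
group of the subshift. The letters `a`, `b` are encoded as the Booleans `false`, `true`.
-/

namespace Q78.RSA

/-- The letter `a`. -/
abbrev a : Bool := false

/-- The letter `b`. -/
abbrev b : Bool := true

/-- The random substitution on letters. -/
def theta : Bool → Set (List Bool)
  | false => {[a, b, a, a], [a, a, b, a]}
  | true => {[a, b, a, b], [b, a, b, a]}

/-- The random substitution on words: each letter is replaced independently. -/
def thetaWord : List Bool → Set (List Bool)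
  | [] => {[]}
  | c :: u => {w | ∃ v ∈ theta c, ∃ v' ∈ thetaWord u, w = v ++ v'}

/-- The random substitution on sets of words: union of the images. -/
def thetaSet (S : Set (List Bool)) : Set (List Bool) := ⋃ u ∈ S, thetaWord u

/-- `ϑ^k(a)`. -/
def thetaPow : ℕ → Set (List Bool)
  | 0 => {[a]}
  | k + 1 => thetaSet (thetaPow k)

/-- A finite word is legal if it is a subword of some element of some `ϑ^k(a)`. -/
def Legal (w : List Bool) : Prop := ∃ k, ∃ u ∈ thetaPow k, w <:+: u

/-- The subword `x_i ⋯ x_{i+n-1}`. -/
def window (x : ℤ → Bool) (i : ℤ) (n : ℕ) : List Bool :=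
  (List.range n).map fun j : ℕ => x (i + (j : ℤ))

/-- The subshift: all finite subwords are legal. -/
def X : Set (ℤ → Bool) := {x | ∀ (i : ℤ) (n : ℕ), Legal (window x i n)}

theorem shift_mem {x : ℤ → Bool} (hx : x ∈ X) : (fun i => x (i + 1)) ∈ X := by
  intro i n
  have h := hx (i + 1) n
  have e : window (fun i => x (i + 1)) i n = window x (i + 1) n := by
    unfold window
    apply List.map_congr_left
    intro j _
    show x (i + (j : ℤ) + 1) = x (i + 1 + (j : ℤ))
    congr 1
    ring
  rw [e]
  exact h

/-- The points of the subshift, with the topology induced from the product topology. -/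
def Points : Type := X

instance : TopologicalSpace Points := inferInstanceAs (TopologicalSpace X)

/-- The left shift on the subshift. -/
def shift (x : Points) : Points := ⟨fun i => x.1 (i + 1), shift_mem x.2⟩

/-- `f` commutes with the shift. -/
def Commutes (f : Points ≃ₜ Points) : Prop := ∀ x, f (shift x) = shift (f x)

theorem commutes_mul {f g : Points ≃ₜ Points} (hf : Commutes f) (hg : Commutes g) :
    Commutes (f * g) := by
  intro x
  show f (g (shift x)) = shift (f (g x))
  rw [hg x, hf (g x)]

theorem commutes_one : Commutes 1 := fun _ => rfl

theorem commutes_inv {f : Points ≃ₜ Points} (hf : Commutes f) : Commutes f⁻¹ := by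
  intro x
  show f.symm (shift x) = shift (f.symm x)
  apply f.injective
  rw [f.apply_symm_apply, hf, f.apply_symm_apply]

/-- The automorphism group of the subshift: all homeomorphisms commuting with the shift
(a subgroup of the group of all homeomorphisms, under composition). -/
def Aut : Subgroup (Points ≃ₜ Points) where
  carrier := {f | Commutes f}
  mul_mem' := commutes_mul
  one_mem' := commutes_one
  inv_mem' := commutes_inv

/-- The automorphism group as a type. -/
def AutGroup : Type := Aut

instance : Group AutGroup := inferInstanceAs (Group Aut)

end Q78.RSA
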