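import Mathlib
import Pool.Agent.Q78.RSA.Defs

/-! Structure of the subshift. -/

namespace Q78.RSA

open Set

/-! ### Words -/

theorem theta_nonempty (c : Bool) : (theta c).Nonempty := by
  cases c
  · exact ⟨[a, b, a, a], Or.inl rfl⟩
  · exact ⟨[a, b, a, b], Or.inl rfl⟩

theorem thetaWord_nonempty (u : List Bool) : (thetaWord u).Nonempty := by
  induction u with
  | nil => exact ⟨[], rfl⟩
  | cons c u ih =>
    obtain ⟨v, hv⟩ := theta_nonempty c
    obtain ⟨v', hv'⟩ := ih
    exact ⟨v ++ v', v, hv, v', hv', rfl⟩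

theorem thetaWord_append {u v w w' : List Bool} (h : w ∈ thetaWord u) (h' : w' ∈ thetaWord v) :
    w ++ w' ∈ thetaWord (u ++ v) := by
  induction u generalizing w with
  | nil =>
    have : w = [] := h
    subst this
    simpa using h'
  | cons c u ih =>
    obtain ⟨x, hx, y, hy, rfl⟩ := h
    exact ⟨x, hx, y ++ w', ih hy, by rw [List.append_assoc]⟩

theorem legal_infix {w v : List Bool} (h : w <:+: v) (hv : Legal v) : Legal w := by
  obtain ⟨k, u, hu, hvu⟩ := hv
  exact ⟨k, u, hu, h.trans hvu⟩

theorem legal_image {v w : List Bool} (hv : Legal v) (hw : w ∈ thetaWord v) : Legal w := by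
  obtain ⟨k, u, hu, s, r, hsr⟩ := hv
  obtain ⟨s', hs'⟩ := thetaWord_nonempty s
  obtain ⟨r', hr'⟩ := thetaWord_nonempty r
  refine ⟨k + 1, s' ++ w ++ r', ?_, ⟨s', r', rfl⟩⟩
  refine mem_biUnion hu ?_
  rw [← hsr]
  exact thetaWord_append (thetaWord_append hs' hw) hr'

/-- The four blocks. -/
def okb (p q r s : Bool) : Bool :=
  (!p && q && !r && !s) || (!p && !q && r && !s) || (!p && q && !r && s) ||
    (p && !q && r && !s)

/-- The type of a block: `b` iff the number of letters `b` is even. -/
def typ (p q r s : Bool) : Bool := !(xor (xor p q) (xor r s))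

theorem mem_theta_iff (c p q r s : Bool) :
    [p, q, r, s] ∈ theta c ↔ okb p q r s = true ∧ typ p q r s = c := by
  cases c
  · show ([p, q, r, s] = [a, b, a, a] ∨ [p, q, r, s] = [a, a, b, a]) ↔ _
    revert p q r s
    decide
  · show ([p, q, r, s] = [a, b, a, b] ∨ [p, q, r, s] = [b, a, b, a]) ↔ _
    revert p q r s
    decide

theorem theta_length {c : Bool} {w : List Bool} (h : w ∈ theta c) :
    ∃ p q r s, w = [p, q, r, s] := by
  cases c
  · rcases h with h | h
    · exact ⟨_, _, _, _, h⟩
    · exact ⟨_, _, _, _, h⟩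
  · rcases h with h | h
    · exact ⟨_, _, _, _, h⟩
    · exact ⟨_, _, _, _, h⟩

theorem thetaWord_spec {u v : List Bool} (h : u ∈ thetaWord v) :
    u.length = 4 * v.length ∧ ∀ k < v.length,
      okb (u.getD (4 * k) false) (u.getD (4 * k + 1) false) (u.getD (4 * k + 2) false)
        (u.getD (4 * k + 3) false) = true ∧
      typ (u.getD (4 * k) false) (u.getD (4 * k + 1) false) (u.getD (4 * k + 2) false)
        (u.getD (4 * k + 3) false) = v.getD k false := by
  induction v generalizing u with
  | nil =>
    have : u = [] := h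
    subst this
    exact ⟨rfl, fun k hk => absurd hk (by simp)⟩
  | cons c v ih =>
    obtain ⟨x, hx, y, hy, rfl⟩ := h
    obtain ⟨h1, h2⟩ := ih hy
    obtain ⟨p, q, r, s, rfl⟩ := theta_length hx
    obtain ⟨e1, e2⟩ := (mem_theta_iff _ _ _ _ _).1 hx
    refine ⟨by simp [h1]; ring, ?_⟩
    intro k hk
    cases k with
    | zero => exact ⟨e1, e2⟩
    | succ k =>
      have := h2 k (by simpa using hk)
      exact this

/-! ### Windows -/

theorem window_succ (x : ℤ → Bool) (i : ℤ) (n : ℕ) :
    window x i (n + 1) = x i :: window x (i + 1) n := by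
  unfold window
  rw [List.range_succ_eq_map, List.map_cons, List.map_map]
  simp only [Nat.cast_zero, add_zero]
  congr 1
  apply List.map_congr_left
  intro j _
  show x (i + ((j + 1 : ℕ) : ℤ)) = x (i + 1 + (j : ℤ))
  congr 1
  push_cast
  ring

theorem window_length (x : ℤ → Bool) (i : ℤ) (n : ℕ) : (window x i n).length = n := by
  simp [window]

theorem window_add (x : ℤ → Bool) (i : ℤ) (m n : ℕ) :
    window x i (m + n) = window x i m ++ window x (i + m) n := by
  induction m generalizing i with
  | zero => simp [window]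
  | succ m ih =>
    rw [show m + 1 + n = (m + n) + 1 by ring, window_succ, ih, window_succ]
    simp only [List.cons_append]
    congr 3
    push_cast
    ring

theorem window_getD (x : ℤ → Bool) (i : ℤ) (n j : ℕ) (hj : j < n) :
    (window x i n).getD j false = x (i + j) := by
  unfold window
  rw [List.getD_eq_getElem _ _ (by simpa using hj)]
  simp

theorem window_congr {x y : ℤ → Bool} {i : ℤ} {n : ℕ}
    (h : ∀ j : ℕ, j < n → x (i + j) = y (i + j)) : window x i n = window y i n := by
  unfold window
  apply List.map_congr_left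
  intro j hj
  exact h j (List.mem_range.1 hj)

/-- A window contained in another one. -/
theorem window_infix (x : ℤ → Bool) {i j : ℤ} {n m : ℕ} (h1 : j ≤ i) (h2 : i + n ≤ j + m) :
    window x i n <:+: window x j m := by
  obtain ⟨d, hd⟩ : ∃ d : ℕ, i = j + d := ⟨(i - j).toNat, by omega⟩
  obtain ⟨e, he⟩ : ∃ e : ℕ, m = d + (n + e) := ⟨m - d - n, by omega⟩
  subst hd
  rw [he, window_add, window_add]
  exact ⟨window x j d, window x (j + d + n) e, by rw [List.append_assoc]⟩

/-- The block at position `p`. -/
def IsBlk (x : ℤ → Bool) (p : ℤ) : Prop := okb (x p) (x (p + 1)) (x (p + 2)) (x (p + 3)) = true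

/-- The type of the block at position `p`. -/
def tp (x : ℤ → Bool) (p : ℤ) : Bool := typ (x p) (x (p + 1)) (x (p + 2)) (x (p + 3))

/-- `x` is cut into blocks at `t + 4ℤ`, with type sequence in the subshift. -/
def Dec (x : ℤ → Bool) (t : ℤ) : Prop :=
  (∀ k : ℤ, IsBlk x (t + 4 * k)) ∧ (fun k : ℤ => tp x (t + 4 * k)) ∈ X

theorem window_mem_thetaWord (x : ℤ → Bool) (t : ℤ) (h : ∀ k : ℤ, IsBlk x (t + 4 * k)) (k : ℤ)
    (n : ℕ) : window x (t + 4 * k) (4 * n) ∈
      thetaWord (window (fun k : ℤ => tp x (t + 4 * k)) k n) := by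
  induction n generalizing k with
  | zero => exact rfl
  | succ n ih =>
    rw [window_succ]
    have e : window x (t + 4 * k) (4 * (n + 1)) =
        [x (t + 4 * k), x (t + 4 * k + 1), x (t + 4 * k + 2), x (t + 4 * k + 3)] ++
          window x (t + 4 * (k + 1)) (4 * n) := by
      rw [show 4 * (n + 1) = 4 * n + 1 + 1 + 1 + 1 by ring, window_succ, window_succ, window_succ,
        window_succ, show t + 4 * k + 1 + 1 = t + 4 * k + 2 by ring,
        show t + 4 * k + 2 + 1 = t + 4 * k + 3 by ring,
        show t + 4 * k + 3 + 1 = t + 4 * (k + 1) by ring]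
      rfl
    rw [e]
    refine ⟨_, ?_, _, ih (k + 1), rfl⟩
    rw [mem_theta_iff]
    exact ⟨h k, rfl⟩

/-- Sequences with a decomposition are in the subshift. -/
theorem mem_of_dec {x : ℤ → Bool} {t : ℤ} (h : Dec x t) : x ∈ X := by
  intro i n
  obtain ⟨h1, h2⟩ := h
  set k := (i - t) / 4 with hk
  have hb1 : t + 4 * k ≤ i := by omega
  refine legal_infix (window_infix x (j := t + 4 * k) (m := 4 * (n + 1)) hb1 (by omega)) ?_
  exact legal_image (h2 k (n + 1)) (window_mem_thetaWord x t h1 k (n + 1))

/-- Finite version of the decomposition. -/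
theorem dec_fin {x : ℤ → Bool} (hx : x ∈ X) (N : ℕ) : ∃ t : ℤ, 0 ≤ t ∧ t < 4 ∧
    (∀ k : ℤ, -N ≤ t + 4 * k → t + 4 * k + 4 ≤ N → IsBlk x (t + 4 * k)) ∧
    ∀ (k : ℤ) (m : ℕ), -N ≤ t + 4 * k → t + 4 * (k + m) ≤ N →
      Legal (window (fun k : ℤ => tp x (t + 4 * k)) k m) := by
  -- use a larger window to be sure that the word is not a single letter
  obtain ⟨K, u, hu, s, r, hsr⟩ := hx (-N) (2 * N + 2)
  have hlen : 2 * N + 2 ≤ u.length := by
    rw [← hsr]
    simp [window_length]
    omega
  cases K with
  | zero =>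
    have : u = [a] := hu
    subst this
    simp at hlen
  | succ K =>
    obtain ⟨v, hv, huv⟩ := mem_iUnion₂.1 hu
    obtain ⟨hl, hsp⟩ := thetaWord_spec huv
    have hx' : ∀ p : ℤ, -N ≤ p → p < N + 2 → x p = u.getD (p + N + s.length).toNat false := by
      intro p hp1 hp2
      obtain ⟨j, hj⟩ : ∃ j : ℕ, p = -N + j := ⟨(p + N).toNat, by omega⟩
      have hjn : j < 2 * N + 2 := by omega
      have e : (p + N + s.length).toNat = s.length + j := by omega
      rw [e, ← hsr, List.append_assoc, List.getD_append_right _ _ _ _ (by omega),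
        Nat.add_sub_cancel_left, List.getD_append _ _ _ _ (by rw [window_length]; exact hjn),
        window_getD _ _ _ _ hjn, hj]
    have hul : s.length + (2 * N + 2) ≤ u.length := by
      rw [← hsr]
      simp [window_length]
    set t : ℤ := (-(N : ℤ) - s.length) % 4 with ht
    set c : ℤ := (-(N : ℤ) - s.length) / 4 with hc
    have htc : -(N : ℤ) - s.length = t + 4 * c := by
      rw [ht, hc]; omega
    have key : ∀ k : ℤ, -N ≤ t + 4 * k → t + 4 * k + 4 ≤ N → 0 ≤ k - c ∧
        (k - c).toNat < v.length ∧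
        IsBlk x (t + 4 * k) ∧ tp x (t + 4 * k) = v.getD (k - c).toNat false := by
      intro k h1 h2
      have hk : 0 ≤ k - c := by omega
      obtain ⟨j, hj⟩ : ∃ j : ℕ, k - c = j := ⟨(k - c).toNat, by omega⟩
      have hjt : (k - c).toNat = j := by omega
      have hjv : j < v.length := by omega
      rw [hjt]
      refine ⟨hk, hjv, ?_⟩
      have e0 : x (t + 4 * k) = u.getD (4 * j) false := by
        rw [hx' _ (by omega) (by omega)]; congr 1; omega
      have e1 : x (t + 4 * k + 1) = u.getD (4 * j + 1) false := by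
        rw [hx' _ (by omega) (by omega)]; congr 1; omega
      have e2 : x (t + 4 * k + 2) = u.getD (4 * j + 2) false := by
        rw [hx' _ (by omega) (by omega)]; congr 1; omega
      have e3 : x (t + 4 * k + 3) = u.getD (4 * j + 3) false := by
        rw [hx' _ (by omega) (by omega)]; congr 1; omega
      obtain ⟨g1, g2⟩ := hsp j hjv
      unfold IsBlk tp
      rw [e0, e1, e2, e3]
      exact ⟨g1, g2⟩
    refine ⟨t, by omega, by omega, fun k h1 h2 => (key k h1 h2).2.2.1, ?_⟩
    intro k m h1 h2
    -- the window of types is a subword of `v`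
    rcases Nat.eq_zero_or_pos m with hm | hm
    · subst hm
      exact ⟨0, [a], rfl, by simp [window]⟩
    · have hk0 := key k h1 (by omega)
      have hkl := key (k + m - 1) (by omega) (by omega)
      obtain ⟨j, hj⟩ : ∃ j : ℕ, k - c = j := ⟨(k - c).toNat, by omega⟩
      have hjm : j + m ≤ v.length := by
        have := hkl.2.1
        omega
      refine ⟨K, v, hv, ?_⟩
      have e : window (fun k : ℤ => tp x (t + 4 * k)) k m = (v.drop j).take m := by
        apply List.ext_getElem
        · simp [window_length]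
          omega
        · intro i hi1 hi2
          rw [window_length] at hi1
          have hk := key (k + i) (by omega) (by omega)
          have e1 : (k + i - c).toNat = j + i := by omega
          rw [e1] at hk
          have e2 := window_getD (fun k : ℤ => tp x (t + 4 * k)) k m i hi1
          rw [List.getD_eq_getElem _ _ (by rw [window_length]; exact hi1)] at e2
          rw [e2]
          show tp x (t + 4 * (k + i)) = _
          rw [hk.2.2.2, List.getD_eq_getElem _ _ (by omega)]
          simp
      rw [e]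
      exact (List.take_prefix _ _).isInfix.trans (List.drop_suffix _ _).isInfix

/-- Every point of the subshift has a decomposition. -/
theorem exists_dec {x : ℤ → Bool} (hx : x ∈ X) : ∃ t : ℤ, Dec x t := by
  by_contra hcon
  -- for each phase there is a bound where it fails
  have hfail : ∀ t : ℤ, ∃ N : ℕ, ¬ ((∀ k : ℤ, -N ≤ t + 4 * k → t + 4 * k + 4 ≤ N →
      IsBlk x (t + 4 * k)) ∧ ∀ (k : ℤ) (m : ℕ), -N ≤ t + 4 * k → t + 4 * (k + m) ≤ N →
      Legal (window (fun k : ℤ => tp x (t + 4 * k)) k m)) := by
    intro t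
    by_contra hc
    push Not at hc
    apply hcon
    refine ⟨t, ?_, ?_⟩
    · intro k
      have := (hc ((t + 4 * k).natAbs + 4)).1 k (by omega) (by omega)
      exact this
    · intro k m
      exact (hc ((t + 4 * k).natAbs + 4 * m)).2 k m (by omega) (by omega)
  choose N hN using hfail
  obtain ⟨t, ht0, ht4, h1, h2⟩ := dec_fin hx (N 0 + N 1 + N 2 + N 3)
  apply hN t
  have hle : N t ≤ N 0 + N 1 + N 2 + N 3 := by
    have : t = 0 ∨ t = 1 ∨ t = 2 ∨ t = 3 := by omega
    rcases this with h | h | h | h <;> rw [h] <;> omega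
  refine ⟨fun k hk1 hk2 => h1 k ?_ ?_, fun k m hk1 hk2 => h2 k m ?_ ?_⟩
  · push_cast; omega
  · push_cast; omega
  · push_cast; omega
  · push_cast; omega

end Q78.RSA
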