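import Mathlib
import Pool.Agent.Q78.RSA.Struct

/-! Aperiodicity, separation, markers. -/

namespace Q78.RSA

open Set

/-! ### Aperiodicity -/

def rk (p q r s : Bool) : ℕ :=
  if p then 3 else if q then (if s then 0 else 1) else (if r then 2 else if s then 0 else 1)

theorem rk_step : ∀ p q r s u v : Bool, okb p q r s = true → okb r s u v = true →
    rk p q r s ≤ rk r s u v ∧ (rk p q r s = rk r s u v → typ p q r s = true) := by
  decide

theorem isBlk_congr {x : ℤ → Bool} {p p' : ℤ} (h0 : x p = x p') (h1 : x (p + 1) = x (p' + 1))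
    (h2 : x (p + 2) = x (p' + 2)) (h3 : x (p + 3) = x (p' + 3)) (h : IsBlk x p) : IsBlk x p' := by
  unfold IsBlk at *
  rw [← h0, ← h1, ← h2, ← h3]
  exact h

theorem not_all_true {y : ℤ → Bool} (hy : y ∈ X) (h : ∀ k, y k = true) : False := by
  obtain ⟨t, hb, -⟩ := exists_dec hy
  have := hb 0
  unfold IsBlk at this
  rw [h, h, h, h] at this
  exact absurd this (by decide)

theorem aperiodic (d : ℕ) : 0 < d → ∀ y ∈ X, ¬ ∀ i : ℤ, y i = y (i + d) := by
  induction d using Nat.strong_induction_on with
  | _ d ih =>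
    intro hd y hy hper
    obtain ⟨t, hb, hy'⟩ := exists_dec hy
    by_cases h4 : 4 ∣ d
    · obtain ⟨e, rfl⟩ := h4
      refine ih e (by omega) (by omega) _ hy' ?_
      intro k
      show typ _ _ _ _ = typ _ _ _ _
      have key : ∀ r : ℤ, y (t + 4 * k + r) = y (t + 4 * (k + e) + r) := by
        intro r
        rw [hper (t + 4 * k + r)]
        congr 1
        push_cast
        ring
      have k0 := key 0
      rw [add_zero, add_zero] at k0
      rw [k0, key 1, key 2, key 3]
    · -- a period congruent to 2 mod 4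
      obtain ⟨D, hD1, hD2⟩ : ∃ D : ℕ, D % 4 = 2 ∧ ∀ i : ℤ, y i = y (i + D) := by
        rcases Nat.even_or_odd d with he | ho
        · refine ⟨d, ?_, hper⟩
          obtain ⟨c, hc⟩ := he
          omega
        · refine ⟨2 * d, ?_, ?_⟩
          · obtain ⟨c, hc⟩ := ho
            omega
          · intro i
            rw [hper i, hper (i + d)]
            congr 1
            push_cast
            ring
      have hall : ∀ k : ℤ, IsBlk y (t + 2 * k) := by
        intro k
        rcases Int.even_or_odd k with ⟨c, hc⟩ | ⟨c, hc⟩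
        · have := hb c
          rw [hc]
          rw [show t + 2 * (c + c) = t + 4 * c by ring]
          exact this
        · obtain ⟨c', hc'⟩ : ∃ c' : ℤ, t + 2 * k - D = t + 4 * c' := by
            refine ⟨(2 * k - D) / 4, ?_⟩
            omega
          have := hb c'
          rw [← hc'] at this
          have key : ∀ r : ℤ, y (t + 2 * k - D + r) = y (t + 2 * k + r) := by
            intro r
            rw [hD2 (t + 2 * k - D + r)]
            congr 1
            ring
          have k0 := key 0
          rw [add_zero, add_zero] at k0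
          exact isBlk_congr k0 (key 1) (key 2) (key 3) this
      let r : ℤ → ℕ := fun k => rk (y (t + 2 * k)) (y (t + 2 * k + 1)) (y (t + 2 * k + 2))
        (y (t + 2 * k + 3))
      have hstep : ∀ k : ℤ, r k ≤ r (k + 1) ∧ (r k = r (k + 1) → tp y (t + 2 * k) = true) := by
        intro k
        have h1 := hall k
        have h2 := hall (k + 1)
        unfold IsBlk at h1 h2
        rw [show t + 2 * (k + 1) = t + 2 * k + 2 by ring,
          show t + 2 * k + 2 + 1 = t + 2 * k + 3 by ring] at h2
        have h3 := rk_step _ _ _ _ _ _ h1 h2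
        have e : r (k + 1) = rk (y (t + 2 * k + 2)) (y (t + 2 * k + 3)) (y (t + 2 * k + 2 + 2))
            (y (t + 2 * k + 2 + 3)) := by
          show rk _ _ _ _ = _
          rw [show t + 2 * (k + 1) = t + 2 * k + 2 by ring,
            show t + 2 * k + 2 + 1 = t + 2 * k + 3 by ring]
        rw [e]
        exact h3
      have hmono : Monotone r := monotone_int_of_le_succ fun k => (hstep k).1
      obtain ⟨D', hD'⟩ : ∃ D' : ℕ, D = 2 * D' := ⟨D / 2, by omega⟩
      have hrper : ∀ k : ℤ, r (k + D') = r k := by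
        intro k
        have key : ∀ s : ℤ, y (t + 2 * (k + D') + s) = y (t + 2 * k + s) := by
          intro s
          rw [hD2 (t + 2 * k + s), hD']
          congr 1
          push_cast
          ring
        have k0 := key 0
        rw [add_zero, add_zero] at k0
        show rk _ _ _ _ = rk _ _ _ _
        rw [k0, key 1, key 2, key 3]
      have htrue : ∀ k : ℤ, tp y (t + 2 * k) = true := by
        intro k
        apply (hstep k).2
        apply le_antisymm (hstep k).1
        rw [← hrper k]
        apply hmono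
        have : 1 ≤ D' := by omega
        have : (1 : ℤ) ≤ D' := by exact_mod_cast this
        linarith
      apply not_all_true hy'
      intro k
      have := htrue (2 * k)
      rw [show t + 2 * (2 * k) = t + 4 * k by ring] at this
      exact this

/-! ### Compactness -/

theorem isClosed_X : IsClosed X := by
  have e : X = ⋂ (i : ℤ) (n : ℕ), {x : ℤ → Bool | Legal (window x i n)} := by
    ext x
    simp [X]
  rw [e]
  refine isClosed_iInter fun i => isClosed_iInter fun n => ?_
  have hcont : Continuous fun (x : ℤ → Bool) (j : Fin n) => x (i + (j : ℤ)) :=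
    continuous_pi fun j => continuous_apply _
  have e2 : {x : ℤ → Bool | Legal (window x i n)} =
      (fun (x : ℤ → Bool) (j : Fin n) => x (i + (j : ℤ))) ⁻¹'
        {f : Fin n → Bool | Legal (List.ofFn f)} := by
    ext x
    show Legal (window x i n) ↔ Legal (List.ofFn fun j : Fin n => x (i + (j : ℤ)))
    have : window x i n = List.ofFn fun j : Fin n => x (i + (j : ℤ)) := by
      apply List.ext_getElem
      · simp [window]
      · intro k h1 h2
        simp [window]
    rw [this]
  rw [e2]
  exact (isClosed_discrete _).preimage hcont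

theorem isCompact_X : IsCompact X := isClosed_X.isCompact

theorem separation_one (d : ℕ) (hd : 0 < d) :
    ∃ L : ℕ, ∀ y ∈ X, ∃ i : ℤ, -L ≤ i ∧ i ≤ L ∧ y i ≠ y (i + d) := by
  by_contra hcon
  push Not at hcon
  let Z : ℕ → Set (ℤ → Bool) := fun L => X ∩ {y | ∀ i : ℤ, -L ≤ i → i ≤ L → y i = y (i + d)}
  have hclosed : ∀ L, IsClosed (Z L) := by
    intro L
    refine isClosed_X.inter ?_
    have e : {y : ℤ → Bool | ∀ i : ℤ, -L ≤ i → i ≤ L → y i = y (i + d)} =
        ⋂ (i : ℤ) (_ : -(L : ℤ) ≤ i) (_ : i ≤ L), {y : ℤ → Bool | y i = y (i + d)} := by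
      ext y; simp
    rw [e]
    exact isClosed_iInter fun i => isClosed_iInter fun _ => isClosed_iInter fun _ =>
      isClosed_eq (continuous_apply _) (continuous_apply _)
  have hne := IsCompact.nonempty_iInter_of_sequence_nonempty_isCompact_isClosed Z
    (fun L y hy => ⟨hy.1, fun i h1 h2 => hy.2 i (by push_cast; linarith) (by push_cast; linarith)⟩)
    (fun L => by
      obtain ⟨y, hy, h⟩ := hcon L
      exact ⟨y, hy, h⟩)
    (isCompact_X.inter_right (by
      have e : {y : ℤ → Bool | ∀ i : ℤ, -(0 : ℕ) ≤ i → i ≤ (0 : ℕ) → y i = y (i + d)} =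
          ⋂ (i : ℤ) (_ : -((0 : ℕ) : ℤ) ≤ i) (_ : i ≤ (0 : ℕ)),
            {y : ℤ → Bool | y i = y (i + d)} := by
        ext y; simp
      rw [e]
      exact isClosed_iInter fun i => isClosed_iInter fun _ => isClosed_iInter fun _ =>
        isClosed_eq (continuous_apply _) (continuous_apply _)))
    hclosed
  obtain ⟨y, hy⟩ := hne
  have hy' := mem_iInter.1 hy
  refine aperiodic d hd y (hy' 0).1 fun i => ?_
  exact (hy' i.natAbs).2 i (by omega) (by omega)

theorem separation (K : ℕ) : ∃ L : ℕ, ∀ y ∈ X, ∀ d : ℕ, 0 < d → d ≤ K →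
    ∃ i : ℤ, -L ≤ i ∧ i ≤ L ∧ y i ≠ y (i + d) := by
  induction K with
  | zero => exact ⟨0, fun y _ d h1 h2 => by omega⟩
  | succ K ih =>
    obtain ⟨L, hL⟩ := ih
    obtain ⟨L', hL'⟩ := separation_one (K + 1) (by omega)
    refine ⟨max L L', fun y hy d h1 h2 => ?_⟩
    rcases Nat.lt_or_ge d (K + 1) with h | h
    · obtain ⟨i, g1, g2, g3⟩ := hL y hy d h1 (by omega)
      exact ⟨i, by push_cast; omega, by push_cast; omega, g3⟩
    · have : d = K + 1 := by omega
      subst this
      obtain ⟨i, g1, g2, g3⟩ := hL' y hy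
      exact ⟨i, by push_cast; omega, by push_cast; omega, g3⟩

/-! ### Markers -/

/-- The marker `aa.aa` centred at `q`. -/
def Mk (x : ℤ → Bool) (q : ℤ) : Prop :=
  x (q - 2) = false ∧ x (q - 1) = false ∧ x q = false ∧ x (q + 1) = false

theorem marker_fin : ∀ p0 p1 p2 p3 p4 p5 p6 p7 : Bool, okb p0 p1 p2 p3 = true →
    okb p4 p5 p6 p7 = true →
    ¬ (p0 = false ∧ p1 = false ∧ p2 = false ∧ p3 = false) ∧
    ¬ (p1 = false ∧ p2 = false ∧ p3 = false ∧ p4 = false) ∧
    ¬ (p3 = false ∧ p4 = false ∧ p5 = false ∧ p6 = false) ∧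
    ((p2 = false ∧ p3 = false ∧ p4 = false ∧ p5 = false) →
      typ p0 p1 p2 p3 = false ∧ typ p4 p5 p6 p7 = false) := by
  decide

theorem marker_align {x : ℤ → Bool} {t : ℤ} (h : ∀ k : ℤ, IsBlk x (t + 4 * k)) {q : ℤ}
    (hq : Mk x q) : ∃ k : ℤ, q = t + 4 * k ∧ tp x (t + 4 * (k - 1)) = false ∧
      tp x (t + 4 * k) = false := by
  obtain ⟨m0, m1, m2, m3⟩ := hq
  set k := (q - 2 - t) / 4 with hk
  have hr : q - 2 = t + 4 * k ∨ q - 2 = t + 4 * k + 1 ∨ q - 2 = t + 4 * k + 2 ∨
      q - 2 = t + 4 * k + 3 := by omega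
  have h1 := h k
  have h2 := h (k + 1)
  unfold IsBlk at h1 h2
  have e4 : t + 4 * (k + 1) = t + 4 * k + 4 := by ring
  rw [e4, show t + 4 * k + 4 + 1 = t + 4 * k + 5 by ring,
    show t + 4 * k + 4 + 2 = t + 4 * k + 6 by ring,
    show t + 4 * k + 4 + 3 = t + 4 * k + 7 by ring] at h2
  obtain ⟨f1, f2, f3, f4⟩ := marker_fin _ _ _ _ _ _ _ _ h1 h2
  rcases hr with hr | hr | hr | hr
  · exfalso
    apply f1
    rw [show q - 2 = t + 4 * k by omega] at m0
    rw [show q - 1 = t + 4 * k + 1 by omega] at m1
    rw [show q = t + 4 * k + 2 by omega] at m2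
    rw [show q + 1 = t + 4 * k + 3 by omega] at m3
    exact ⟨m0, m1, m2, m3⟩
  · exfalso
    apply f2
    rw [show q - 2 = t + 4 * k + 1 by omega] at m0
    rw [show q - 1 = t + 4 * k + 2 by omega] at m1
    rw [show q = t + 4 * k + 3 by omega] at m2
    rw [show q + 1 = t + 4 * k + 4 by omega] at m3
    exact ⟨m0, m1, m2, m3⟩
  · refine ⟨k + 1, by omega, ?_⟩
    rw [show q - 2 = t + 4 * k + 2 by omega] at m0
    rw [show q - 1 = t + 4 * k + 3 by omega] at m1
    rw [show q = t + 4 * k + 4 by omega] at m2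
    rw [show q + 1 = t + 4 * k + 5 by omega] at m3
    obtain ⟨g1, g2⟩ := f4 ⟨m0, m1, m2, m3⟩
    unfold tp
    rw [show t + 4 * (k + 1 - 1) = t + 4 * k by ring, e4,
      show t + 4 * k + 4 + 1 = t + 4 * k + 5 by ring,
      show t + 4 * k + 4 + 2 = t + 4 * k + 6 by ring,
      show t + 4 * k + 4 + 3 = t + 4 * k + 7 by ring]
    exact ⟨g1, g2⟩
  · exfalso
    apply f3
    rw [show q - 2 = t + 4 * k + 3 by omega] at m0
    rw [show q - 1 = t + 4 * k + 4 by omega] at m1
    rw [show q = t + 4 * k + 5 by omega] at m2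
    rw [show q + 1 = t + 4 * k + 6 by omega] at m3
    exact ⟨m0, m1, m2, m3⟩

/-- The type sequence read off from a marker is in the subshift. -/
theorem types_mem {x : ℤ → Bool} (hx : x ∈ X) {q : ℤ} (hq : Mk x q) :
    (fun k : ℤ => tp x (q + 4 * k)) ∈ X := by
  obtain ⟨t, hb, hy⟩ := exists_dec hx
  obtain ⟨c, hc, -⟩ := marker_align hb hq
  intro i n
  have := hy (c + i) n
  have e : window (fun k : ℤ => tp x (q + 4 * k)) i n =
      window (fun k : ℤ => tp x (t + 4 * k)) (c + i) n := by
    unfold window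
    apply List.map_congr_left
    intro j _
    show tp x (q + 4 * (i + j)) = tp x (t + 4 * (c + i + j))
    rw [hc]
    congr 1
    ring
  rw [e]
  exact this

/-- Any eight consecutive letters contain a `b`. -/
theorem exists_true {y : ℤ → Bool} (hy : y ∈ X) (i : ℤ) :
    ∃ j : ℤ, i ≤ j ∧ j < i + 8 ∧ y j = true := by
  obtain ⟨t, hb, -⟩ := exists_dec hy
  set k := (i - t + 3) / 4 with hk
  have h := hb k
  unfold IsBlk at h
  have hlo : i ≤ t + 4 * k := by omega
  have hhi : t + 4 * k ≤ i + 3 := by omega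
  by_contra hcon
  push Not at hcon
  have f : ∀ r : ℤ, 0 ≤ r → r ≤ 3 → y (t + 4 * k + r) = false := by
    intro r h0 h3
    have := hcon (t + 4 * k + r) (by omega) (by omega)
    simpa using this
  have f0 := f 0 (by norm_num) (by norm_num)
  rw [add_zero] at f0
  rw [f0, f 1 (by norm_num) (by norm_num), f 2 (by norm_num) (by norm_num),
    f 3 (by norm_num) (by norm_num)] at h
  exact absurd h (by decide)

end Q78.RSA
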