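import Mathlib

/-! A bit flip is a high power of a permutation, hence trivial in small quotients. -/

namespace Q78.RSA

open Equiv

/-- Two fixed point free involutions are conjugate. -/
theorem isConj_of_involution {α : Type} [Fintype α] [DecidableEq α] {f g : Perm α}
    (hf : f * f = 1) (hg : g * g = 1) (hf' : ∀ x, f x ≠ x) (hg' : ∀ x, g x ≠ x)
    [Nonempty α] : IsConj f g := by
  rw [Perm.isConj_iff_cycleType_eq]
  have key : ∀ h : Perm α, h * h = 1 → (∀ x, h x ≠ x) →
      h.cycleType = Multiset.replicate (Fintype.card α / 2) 2 := by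
    intro h h1 h2
    have hne : h ≠ 1 := by
      rintro rfl
      exact h2 (Classical.arbitrary α) rfl
    have hord : orderOf h = 2 := orderOf_eq_prime (by rw [pow_two, h1]) hne
    have hp : (orderOf h).Prime := by rw [hord]; exact Nat.prime_two
    obtain ⟨n, hn⟩ := Perm.cycleType_prime_order hp
    rw [hord] at hn
    have hs := Perm.sum_cycleType h
    have hsup : h.support = Finset.univ := by
      ext x
      simp [h2 x]
    rw [hn, hsup, Finset.card_univ, Multiset.sum_replicate, smul_eq_mul] at hs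
    rw [hn]
    congr 1
    omega
  rw [key f hf hf', key g hg hg']

/-- Flipping one bit. -/
def flipAt {J : Type} [DecidableEq J] (j0 : J) : Perm (J → Bool) where
  toFun f := Function.update f j0 (!f j0)
  invFun f := Function.update f j0 (!f j0)
  left_inv f := by
    funext j
    by_cases h : j = j0
    · subst h; simp
    · simp [h]
  right_inv f := by
    funext j
    by_cases h : j = j0
    · subst h; simp
    · simp [h]

theorem flipAt_sq {J : Type} [DecidableEq J] (j0 : J) : flipAt j0 * flipAt j0 = 1 := by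
  ext f j
  exact congrFun ((flipAt j0).left_inv f) j

theorem flipAt_ne {J : Type} [DecidableEq J] (j0 : J) (f : J → Bool) : flipAt j0 f ≠ f := by
  intro h
  have := congrFun h j0
  simp [flipAt] at this

/-- The bit flip is a `2^(n-1)`-th power. -/
theorem flipAt_root {J : Type} [Fintype J] [DecidableEq J] (j0 : J) (n : ℕ)
    (hn : Fintype.card J = n + 1) : ∃ ρ : Perm (J → Bool), ρ ^ 2 ^ n = flipAt j0 := by
  have hcard : Fintype.card (J → Bool) = 2 ^ (n + 1) := by
    rw [Fintype.card_fun, Fintype.card_bool, hn]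
  have hcardZ : Fintype.card (ZMod (2 ^ (n + 1))) = 2 ^ (n + 1) := ZMod.card _
  let e : (J → Bool) ≃ ZMod (2 ^ (n + 1)) := Fintype.equivOfCardEq (hcard.trans hcardZ.symm)
  let c : Perm (J → Bool) := e.trans ((Equiv.addRight (1 : ZMod (2 ^ (n + 1)))).trans e.symm)
  have hc : ∀ (k : ℕ) (f : J → Bool), (c ^ k) f = e.symm (e f + k) := by
    intro k
    induction k with
    | zero => intro f; simp
    | succ k ih =>
      intro f
      rw [pow_succ', Perm.mul_apply, ih]
      show e.symm (e (e.symm (e f + k)) + 1) = _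
      rw [e.apply_symm_apply]
      push_cast
      rw [add_assoc]
  have hpow : ((2 ^ n : ℕ) : ZMod (2 ^ (n + 1))) + ((2 ^ n : ℕ) : ZMod (2 ^ (n + 1))) = 0 := by
    rw [← Nat.cast_add, ← two_mul, ← pow_succ']
    exact ZMod.natCast_self _
  have hne : ((2 ^ n : ℕ) : ZMod (2 ^ (n + 1))) ≠ 0 := by
    intro h
    rw [ZMod.natCast_eq_zero_iff] at h
    have := Nat.le_of_dvd (by positivity) h
    rw [pow_succ] at this
    have : 0 < 2 ^ n := by positivity
    omega
  have h1 : (c ^ 2 ^ n) * (c ^ 2 ^ n) = 1 := by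
    ext f j
    rw [Perm.mul_apply, hc, hc, e.apply_symm_apply, add_assoc, hpow, add_zero,
      e.symm_apply_apply]
    rfl
  have h2 : ∀ f, (c ^ 2 ^ n) f ≠ f := by
    intro f hf
    rw [hc] at hf
    have := congrArg e hf
    rw [e.apply_symm_apply] at this
    exact hne (by simpa using this)
  have hconj := isConj_of_involution h1 (flipAt_sq j0) h2 (flipAt_ne j0)
  obtain ⟨g, hg⟩ := isConj_iff.1 hconj
  refine ⟨g * c * g⁻¹, ?_⟩
  rw [conj_pow]
  exact hg

/-- The bit flip dies in every finite quotient which is small enough. -/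
theorem flipAt_trivial {J : Type} [Fintype J] [DecidableEq J] (j0 : J) {Q : Type*} [Group Q]
    [Finite Q] (hn : Nat.card Q ≤ Fintype.card J) (ψ : Perm (J → Bool) →* Q) :
    ψ (flipAt j0) = 1 := by
  obtain ⟨n, hJ⟩ : ∃ n, Fintype.card J = n + 1 :=
    ⟨Fintype.card J - 1, by have := Fintype.card_pos_iff.2 ⟨j0⟩; omega⟩
  obtain ⟨ρ, hρ⟩ := flipAt_root j0 n hJ
  rw [← hρ, map_pow]
  set q := ψ ρ with hq
  have hq1 : q ^ 2 ^ (n + 1) = 1 := by
    rw [hq, ← map_pow, pow_succ, pow_mul, hρ, pow_two, flipAt_sq, map_one]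
  obtain ⟨e, he, heq⟩ := (Nat.dvd_prime_pow Nat.prime_two).1 (orderOf_dvd_of_pow_eq_one hq1)
  have hle : orderOf q ≤ Nat.card Q :=
    Nat.le_of_dvd Nat.card_pos (orderOf_dvd_natCard q)
  have hen : e ≤ n := by
    by_contra hcon
    have : 2 ^ (n + 1) ≤ 2 ^ e := Nat.pow_le_pow_right (by norm_num) (by omega)
    have h2 : n + 1 < 2 ^ (n + 1) := Nat.lt_two_pow_self
    omega
  rw [← orderOf_dvd_iff_pow_eq_one, heq]
  exact pow_dvd_pow 2 hen

end Q78.RSA
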