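import Mathlib
import Pool.Agent.Q78.RSA.Aper

/-! Local permutations of the `b`-blocks. -/

namespace Q78.RSA

open Set

/-- Window of contexts. -/
abbrev W (L : ℕ) : Type := {i : ℤ // i ∈ Finset.Icc (-(L : ℤ)) L} → Bool

/-- The context of a position. -/
def ctx (L : ℕ) (x : ℤ → Bool) (q : ℤ) : W L := fun i => tp x (q + 4 * i.1)

/-- Sites: a marker with context in `S`. -/
def Site {L : ℕ} (S : Set (W L)) (x : ℤ → Bool) (q : ℤ) : Prop := Mk x q ∧ ctx L x q ∈ S

/-- Data of a local permutation. -/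
structure Datum where
  L : ℕ
  S : Set (W L)
  J : Finset ℤ
  hJ : ∀ j ∈ J, j ∈ Finset.Icc (-(L : ℤ)) L
  hb : ∀ w ∈ S, ∀ (j : ℤ) (hj : j ∈ J), w ⟨j, hJ j hj⟩ = true
  sep : ∀ x ∈ X, ∀ q q' : ℤ, Site S x q → Site S x q' → ∀ j ∈ J, ∀ j' ∈ J,
    q + 4 * j = q' + 4 * j' → q = q'

namespace Datum

variable (D : Datum)

/-- The bits at a site. -/
def bits (x : ℤ → Bool) (q : ℤ) : D.J → Bool := fun j => x (q + 4 * j.1)

/-- The position `i` belongs to the block number `j` of the site `q`. -/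
def Cov (x : ℤ → Bool) (i q : ℤ) (j : D.J) : Prop :=
  Site D.S x q ∧ q + 4 * j.1 ≤ i ∧ i < q + 4 * j.1 + 4

open Classical in
/-- The map on sequences. -/
noncomputable def phi (π : Equiv.Perm (D.J → Bool)) (x : ℤ → Bool) (i : ℤ) : Bool :=
  if h : ∃ p : ℤ × D.J, D.Cov x i p.1 p.2 then
    xor (x i) (xor (x (h.choose.1 + 4 * h.choose.2.1)) (π (D.bits x h.choose.1) h.choose.2))
  else x i

theorem cov_unique {x : ℤ → Bool} (hx : x ∈ X) {i q q' : ℤ} {j j' : D.J}
    (h : D.Cov x i q j) (h' : D.Cov x i q' j') : q = q' ∧ j = j' := by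
  obtain ⟨t, hb, hy⟩ := exists_dec hx
  obtain ⟨c, hc, -⟩ := marker_align hb h.1.1
  obtain ⟨c', hc', -⟩ := marker_align hb h'.1.1
  have e : q + 4 * j.1 = q' + 4 * j'.1 := by
    have := h.2
    have := h'.2
    omega
  have hq := D.sep x hx q q' h.1 h'.1 j.1 j.2 j'.1 j'.2 e
  exact ⟨hq, Subtype.ext (by omega)⟩

theorem phi_pos (π : Equiv.Perm (D.J → Bool)) {x : ℤ → Bool} (hx : x ∈ X) {i q : ℤ} {j : D.J}
    (h : D.Cov x i q j) :
    D.phi π x i = xor (x i) (xor (x (q + 4 * j.1)) (π (D.bits x q) j)) := by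
  have hex : ∃ p : ℤ × D.J, D.Cov x i p.1 p.2 := ⟨(q, j), h⟩
  unfold phi
  rw [dif_pos hex]
  obtain ⟨e1, e2⟩ := D.cov_unique hx hex.choose_spec h
  rw [e1, e2]

theorem phi_neg (π : Equiv.Perm (D.J → Bool)) {x : ℤ → Bool} {i : ℤ}
    (h : ∀ q j, ¬ D.Cov x i q j) : D.phi π x i = x i := by
  unfold phi
  rw [dif_neg]
  rintro ⟨p, hp⟩
  exact h _ _ hp

theorem compl_fin : ∀ c p0 p1 p2 p3 : Bool, okb p0 p1 p2 p3 = true → typ p0 p1 p2 p3 = true →
    okb (xor p0 c) (xor p1 c) (xor p2 c) (xor p3 c) = true ∧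
    typ (xor p0 c) (xor p1 c) (xor p2 c) (xor p3 c) = true := by
  decide

/-- The effect on an aligned block. -/
theorem phi_block (π : Equiv.Perm (D.J → Bool)) {x : ℤ → Bool} (hx : x ∈ X) {t : ℤ}
    (hd : ∀ k : ℤ, IsBlk x (t + 4 * k)) (k : ℤ) :
    IsBlk (D.phi π x) (t + 4 * k) ∧ tp (D.phi π x) (t + 4 * k) = tp x (t + 4 * k) ∧
      (tp x (t + 4 * k) = false → ∀ r : ℤ, 0 ≤ r → r ≤ 3 →
        D.phi π x (t + 4 * k + r) = x (t + 4 * k + r)) := by
  by_cases hc : ∃ (q : ℤ) (j : D.J), Site D.S x q ∧ q + 4 * j.1 = t + 4 * k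
  · obtain ⟨q, j, hs, hq⟩ := hc
    set c := xor (x (q + 4 * j.1)) (π (D.bits x q) j) with hcdef
    have key : ∀ r : ℤ, 0 ≤ r → r ≤ 3 → D.phi π x (t + 4 * k + r) =
        xor (x (t + 4 * k + r)) c := by
      intro r h0 h3
      rw [D.phi_pos π hx (i := t + 4 * k + r) (q := q) (j := j) ⟨hs, by omega, by omega⟩]
    have htp : tp x (t + 4 * k) = true := by
      have := D.hb _ hs.2 j.1 j.2
      rw [← hq]
      exact this
    have k0 := key 0 (by norm_num) (by norm_num)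
    rw [add_zero] at k0
    have hblk := hd k
    obtain ⟨g1, g2⟩ := compl_fin c _ _ _ _ hblk htp
    refine ⟨?_, ?_, ?_⟩
    · unfold IsBlk
      rw [k0, key 1 (by norm_num) (by norm_num), key 2 (by norm_num) (by norm_num),
        key 3 (by norm_num) (by norm_num)]
      exact g1
    · rw [htp]
      unfold tp
      rw [k0, key 1 (by norm_num) (by norm_num), key 2 (by norm_num) (by norm_num),
        key 3 (by norm_num) (by norm_num)]
      exact g2
    · intro hf
      rw [htp] at hf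
      exact absurd hf (by decide)
  · push Not at hc
    have key : ∀ r : ℤ, 0 ≤ r → r ≤ 3 → D.phi π x (t + 4 * k + r) = x (t + 4 * k + r) := by
      intro r h0 h3
      apply D.phi_neg
      rintro q j ⟨hs, h1, h2⟩
      obtain ⟨c, hc', -⟩ := marker_align hd hs.1
      exact hc q j hs (by omega)
    have k0 := key 0 (by norm_num) (by norm_num)
    rw [add_zero] at k0
    refine ⟨?_, ?_, fun _ => key⟩
    · unfold IsBlk
      rw [k0, key 1 (by norm_num) (by norm_num), key 2 (by norm_num) (by norm_num),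
        key 3 (by norm_num) (by norm_num)]
      exact hd k
    · unfold tp
      rw [k0, key 1 (by norm_num) (by norm_num), key 2 (by norm_num) (by norm_num),
        key 3 (by norm_num) (by norm_num)]

theorem dec_phi (π : Equiv.Perm (D.J → Bool)) {x : ℤ → Bool} (hx : x ∈ X) {t : ℤ}
    (hd : Dec x t) : Dec (D.phi π x) t := by
  refine ⟨fun k => (D.phi_block π hx hd.1 k).1, ?_⟩
  have e : (fun k : ℤ => tp (D.phi π x) (t + 4 * k)) = fun k : ℤ => tp x (t + 4 * k) := by
    funext k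
    exact (D.phi_block π hx hd.1 k).2.1
  rw [e]
  exact hd.2

theorem phi_mem (π : Equiv.Perm (D.J → Bool)) {x : ℤ → Bool} (hx : x ∈ X) : D.phi π x ∈ X := by
  obtain ⟨t, hd⟩ := exists_dec hx
  exact mem_of_dec (D.dec_phi π hx hd)

theorem mk_phi (π : Equiv.Perm (D.J → Bool)) {x : ℤ → Bool} (hx : x ∈ X) (q : ℤ) :
    Mk (D.phi π x) q ↔ Mk x q := by
  obtain ⟨t, hd⟩ := exists_dec hx
  have key : ∀ c : ℤ, q = t + 4 * c → tp x (t + 4 * (c - 1)) = false →
      tp x (t + 4 * c) = false → (Mk (D.phi π x) q ↔ Mk x q) := by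
    intro c hc h1 h2
    have b1 := (D.phi_block π hx hd.1 (c - 1)).2.2 h1
    have b2 := (D.phi_block π hx hd.1 c).2.2 h2
    have g1 := b1 2 (by norm_num) (by norm_num)
    have g2 := b1 3 (by norm_num) (by norm_num)
    have g3 := b2 0 (by norm_num) (by norm_num)
    have g4 := b2 1 (by norm_num) (by norm_num)
    rw [show t + 4 * (c - 1) + 2 = q - 2 by omega] at g1
    rw [show t + 4 * (c - 1) + 3 = q - 1 by omega] at g2
    rw [show t + 4 * c + 0 = q by omega] at g3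
    rw [show t + 4 * c + 1 = q + 1 by omega] at g4
    unfold Mk
    rw [g1, g2, g3, g4]
  constructor
  · intro h
    obtain ⟨c, hc, h1, h2⟩ := marker_align (D.dec_phi π hx hd).1 h
    rw [(D.phi_block π hx hd.1 _).2.1] at h1 h2
    exact (key c hc h1 h2).1 h
  · intro h
    obtain ⟨c, hc, h1, h2⟩ := marker_align hd.1 h
    exact (key c hc h1 h2).2 h

theorem ctx_phi (π : Equiv.Perm (D.J → Bool)) {x : ℤ → Bool} (hx : x ∈ X) {q : ℤ} (hq : Mk x q)
    (L : ℕ) : ctx L (D.phi π x) q = ctx L x q := by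
  obtain ⟨t, hd⟩ := exists_dec hx
  obtain ⟨c, hc, -⟩ := marker_align hd.1 hq
  funext i
  show tp (D.phi π x) (q + 4 * i.1) = tp x (q + 4 * i.1)
  have := (D.phi_block π hx hd.1 (c + i.1)).2.1
  rw [show t + 4 * (c + i.1) = q + 4 * i.1 by rw [hc]; ring] at this
  exact this

theorem site_phi (π : Equiv.Perm (D.J → Bool)) {x : ℤ → Bool} (hx : x ∈ X) (q : ℤ) {L : ℕ}
    (S : Set (W L)) : Site S (D.phi π x) q ↔ Site S x q := by
  constructor
  · rintro ⟨h1, h2⟩
    have h1' := (D.mk_phi π hx q).1 h1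
    rw [D.ctx_phi π hx h1'] at h2
    exact ⟨h1', h2⟩
  · rintro ⟨h1, h2⟩
    refine ⟨(D.mk_phi π hx q).2 h1, ?_⟩
    rw [D.ctx_phi π hx h1]
    exact h2

theorem bits_phi (π : Equiv.Perm (D.J → Bool)) {x : ℤ → Bool} (hx : x ∈ X) {q : ℤ}
    (hs : Site D.S x q) : D.bits (D.phi π x) q = π (D.bits x q) := by
  funext j
  show D.phi π x (q + 4 * j.1) = _
  rw [D.phi_pos π hx (i := q + 4 * j.1) (q := q) (j := j) ⟨hs, le_refl _, by omega⟩]
  rw [← Bool.xor_assoc, Bool.xor_self, Bool.false_xor]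

theorem phi_mul (π π' : Equiv.Perm (D.J → Bool)) {x : ℤ → Bool} (hx : x ∈ X) :
    D.phi π' (D.phi π x) = D.phi (π' * π) x := by
  funext i
  by_cases h : ∃ q j, D.Cov x i q j
  · obtain ⟨q, j, hc⟩ := h
    have hc' : D.Cov (D.phi π x) i q j := ⟨(D.site_phi π hx q D.S).2 hc.1, hc.2⟩
    rw [D.phi_pos π' (D.phi_mem π hx) hc', D.phi_pos (π' * π) hx hc, D.bits_phi π hx hc.1,
      D.phi_pos π hx hc]
    have hc0 : D.Cov x (q + 4 * j.1) q j := ⟨hc.1, le_refl _, by omega⟩
    rw [D.phi_pos π hx hc0]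
    show _ = xor (x i) (xor (x (q + 4 * j.1)) (π' (π (D.bits x q)) j))
    generalize x i = a1
    generalize x (q + 4 * j.1) = a2
    generalize π (D.bits x q) j = a3
    generalize π' (π (D.bits x q)) j = a4
    revert a1 a2 a3 a4
    decide
  · push Not at h
    have h' : ∀ q j, ¬ D.Cov (D.phi π x) i q j := by
      rintro q j ⟨hs, hr⟩
      exact h q j ⟨(D.site_phi π hx q D.S).1 hs, hr⟩
    rw [D.phi_neg π' h', D.phi_neg π h, D.phi_neg (π' * π) h]

theorem phi_one {x : ℤ → Bool} (hx : x ∈ X) : D.phi 1 x = x := by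
  funext i
  by_cases h : ∃ q j, D.Cov x i q j
  · obtain ⟨q, j, hc⟩ := h
    rw [D.phi_pos 1 hx hc]
    show xor (x i) (xor (x (q + 4 * j.1)) (x (q + 4 * j.1))) = x i
    rw [Bool.xor_self, Bool.xor_false]
  · push Not at h
    exact D.phi_neg 1 h

/-! ### Shift and continuity -/

theorem mk_shift (x : ℤ → Bool) (q : ℤ) : Mk (fun i => x (i + 1)) q ↔ Mk x (q + 1) := by
  unfold Mk
  dsimp only
  rw [show q - 2 + 1 = q + 1 - 2 by ring, show q - 1 + 1 = q + 1 - 1 by ring]

theorem tp_shift (x : ℤ → Bool) (p : ℤ) : tp (fun i => x (i + 1)) p = tp x (p + 1) := by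
  unfold tp
  dsimp only
  rw [show p + 2 + 1 = p + 1 + 2 by ring, show p + 3 + 1 = p + 1 + 3 by ring]

theorem site_shift {L : ℕ} (S : Set (W L)) (x : ℤ → Bool) (q : ℤ) :
    Site S (fun i => x (i + 1)) q ↔ Site S x (q + 1) := by
  unfold Site
  rw [mk_shift]
  have e : ctx L (fun i => x (i + 1)) q = ctx L x (q + 1) := by
    funext i
    show tp (fun i => x (i + 1)) (q + 4 * i.1) = tp x (q + 1 + 4 * i.1)
    rw [tp_shift]
    congr 1
    ring
  rw [e]

theorem phi_shift (π : Equiv.Perm (D.J → Bool)) {x : ℤ → Bool} (hx : x ∈ X) :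
    D.phi π (fun i => x (i + 1)) = fun i => D.phi π x (i + 1) := by
  funext i
  by_cases h : ∃ q j, D.Cov x (i + 1) q j
  · obtain ⟨q, j, hs, h1, h2⟩ := h
    have hc' : D.Cov (fun i => x (i + 1)) i (q - 1) j := by
      refine ⟨(site_shift _ _ _).2 ?_, by omega, by omega⟩
      rw [sub_add_cancel]
      exact hs
    rw [D.phi_pos π (shift_mem hx) hc', D.phi_pos π hx ⟨hs, h1, h2⟩]
    have e1 : q - 1 + 4 * j.1 + 1 = q + 4 * j.1 := by ring
    have e2 : D.bits (fun i => x (i + 1)) (q - 1) = D.bits x q := by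
      funext j'
      show x (q - 1 + 4 * j'.1 + 1) = x (q + 4 * j'.1)
      congr 1
      ring
    rw [e1, e2]
  · push Not at h
    rw [D.phi_neg π h, D.phi_neg π]
    rintro q j ⟨hs, h1, h2⟩
    exact h (q + 1) j ⟨(site_shift _ _ _).1 hs, by omega, by omega⟩

theorem site_congr {L : ℕ} (S : Set (W L)) {x y : ℤ → Bool} {q : ℤ}
    (h : ∀ i : ℤ, q - (4 * L + 4) ≤ i → i ≤ q + (4 * L + 4) → x i = y i) (hs : Site S x q) :
    Site S y q := by
  refine ⟨?_, ?_⟩
  · obtain ⟨h1, h2, h3, h4⟩ := hs.1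
    refine ⟨?_, ?_, ?_, ?_⟩
    · rw [← h _ (by omega) (by omega)]; exact h1
    · rw [← h _ (by omega) (by omega)]; exact h2
    · rw [← h _ (by omega) (by omega)]; exact h3
    · rw [← h _ (by omega) (by omega)]; exact h4
  · have e : ctx L y q = ctx L x q := by
      funext i
      obtain ⟨i, hi⟩ := i
      have hi' := Finset.mem_Icc.1 hi
      show tp y (q + 4 * i) = tp x (q + 4 * i)
      unfold tp
      rw [h (q + 4 * i) (by omega) (by omega), h (q + 4 * i + 1) (by omega) (by omega),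
        h (q + 4 * i + 2) (by omega) (by omega), h (q + 4 * i + 3) (by omega) (by omega)]
    rw [e]
    exact hs.2

theorem phi_congr (π : Equiv.Perm (D.J → Bool)) {x y : ℤ → Bool} (hx : x ∈ X) (hy : y ∈ X) (i : ℤ)
    (h : ∀ k : ℤ, i - (8 * D.L + 8) ≤ k → k ≤ i + (8 * D.L + 8) → x k = y k) :
    D.phi π x i = D.phi π y i := by
  have hJ' : ∀ j : D.J, -(D.L : ℤ) ≤ j.1 ∧ j.1 ≤ D.L := fun j => Finset.mem_Icc.1 (D.hJ j.1 j.2)
  by_cases hc : ∃ q j, D.Cov x i q j
  · obtain ⟨q, j, hs, h1, h2⟩ := hc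
    have hj := hJ' j
    have hc' : D.Cov y i q j :=
      ⟨site_congr D.S (fun k hk1 hk2 => h k (by omega) (by omega)) hs, h1, h2⟩
    rw [D.phi_pos π hx ⟨hs, h1, h2⟩, D.phi_pos π hy hc']
    have e1 : D.bits x q = D.bits y q := by
      funext j'
      have hj' := hJ' j'
      exact h _ (by omega) (by omega)
    rw [e1, h i (by omega) (by omega), h (q + 4 * j.1) (by omega) (by omega)]
  · push Not at hc
    have hc' : ∀ q j, ¬ D.Cov y i q j := by
      rintro q j ⟨hs, h1, h2⟩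
      have hj := hJ' j
      exact hc q j ⟨site_congr D.S (fun k hk1 hk2 => (h k (by omega) (by omega)).symm) hs, h1, h2⟩
    rw [D.phi_neg π hc, D.phi_neg π hc']
    exact h i (by omega) (by omega)

/-- The map on the subshift. -/
noncomputable def phiX (π : Equiv.Perm (D.J → Bool)) (x : Points) : Points :=
  ⟨D.phi π x.1, D.phi_mem π x.2⟩

theorem continuous_phiX (π : Equiv.Perm (D.J → Bool)) : Continuous (D.phiX π) := by
  refine Continuous.subtype_mk (continuous_pi fun i => ?_) _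
  rw [continuous_discrete_rng]
  intro c
  rw [isOpen_iff_forall_mem_open]
  intro x hx
  refine ⟨{y : Points | ∀ k ∈ Finset.Icc (i - (8 * (D.L : ℤ) + 8)) (i + (8 * (D.L : ℤ) + 8)),
    y.1 k = x.1 k}, ?_, ?_, fun k _ => rfl⟩
  · intro y hy
    show D.phi π y.1 i = c
    rw [D.phi_congr π y.2 x.2 i (fun k h1 h2 => hy k (Finset.mem_Icc.2 ⟨h1, h2⟩))]
    exact hx
  · have e : {y : Points | ∀ k ∈ Finset.Icc (i - (8 * (D.L : ℤ) + 8)) (i + (8 * (D.L : ℤ) + 8)),
        y.1 k = x.1 k} = ⋂ k ∈ Finset.Icc (i - (8 * (D.L : ℤ) + 8)) (i + (8 * (D.L : ℤ) + 8)),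
        {y : Points | y.1 k = x.1 k} := by
      ext y; simp
    rw [e]
    refine isOpen_biInter_finset fun k _ => ?_
    have hc : Continuous fun y : Points => y.1 k := (continuous_apply k).comp continuous_subtype_val
    exact (isOpen_discrete {x.1 k}).preimage hc

/-- The homeomorphism. -/
noncomputable def phiH (π : Equiv.Perm (D.J → Bool)) : Points ≃ₜ Points where
  toFun := D.phiX π
  invFun := D.phiX π⁻¹
  left_inv x := by
    apply Subtype.ext
    show D.phi π⁻¹ (D.phi π x.1) = x.1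
    rw [D.phi_mul π π⁻¹ x.2, inv_mul_cancel, D.phi_one x.2]
  right_inv x := by
    apply Subtype.ext
    show D.phi π (D.phi π⁻¹ x.1) = x.1
    rw [D.phi_mul π⁻¹ π x.2, mul_inv_cancel, D.phi_one x.2]
  continuous_toFun := D.continuous_phiX π
  continuous_invFun := D.continuous_phiX π⁻¹

/-- The homomorphism to the automorphism group. -/
noncomputable def Phi : Equiv.Perm (D.J → Bool) →* AutGroup where
  toFun π := ⟨D.phiH π, fun x => Subtype.ext (D.phi_shift π x.2)⟩
  map_one' := by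
    apply Subtype.ext
    apply Homeomorph.ext
    intro x
    exact Subtype.ext (D.phi_one x.2)
  map_mul' π π' := by
    apply Subtype.ext
    apply Homeomorph.ext
    intro x
    exact Subtype.ext (D.phi_mul π' π x.2).symm

theorem Phi_apply (π : Equiv.Perm (D.J → Bool)) (x : Points) :
    ((D.Phi π).1 x).1 = D.phi π x.1 := rfl

end Datum

end Q78.RSA
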