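import Mathlib
import Pool.Agent.Q78.RSA.Phi
import Pool.Agent.Q78.RSA.Group

/-! The automorphism group of the subshift is not residually finite. -/

namespace Q78.RSA

open Set

theorem flip_apply (D : Datum) (j0 : D.J) {x : ℤ → Bool} (hx : x ∈ X) (i : ℤ) :
    D.phi (flipAt j0) x i = !(x i) ∧ (∃ q, Site D.S x q ∧ q + 4 * j0.1 ≤ i ∧ i < q + 4 * j0.1 + 4) ∨
    D.phi (flipAt j0) x i = x i ∧
      ¬ ∃ q, Site D.S x q ∧ q + 4 * j0.1 ≤ i ∧ i < q + 4 * j0.1 + 4 := by
  by_cases h : ∃ q j, D.Cov x i q j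
  · obtain ⟨q, j, hc⟩ := h
    rw [D.phi_pos _ hx hc]
    by_cases hj : j = j0
    · subst hj
      left
      refine ⟨?_, q, hc⟩
      show xor (x i) (xor (x (q + 4 * j.1)) (Function.update (D.bits x q) j (!D.bits x q j) j)) = _
      rw [Function.update_self]
      show xor (x i) (xor (x (q + 4 * j.1)) (!x (q + 4 * j.1))) = _
      generalize x i = a1
      generalize x (q + 4 * j.1) = a2
      revert a1 a2
      decide
    · right
      constructor
      · show xor (x i) (xor (x (q + 4 * j.1))
          (Function.update (D.bits x q) j0 (!D.bits x q j0) j)) = _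
        rw [Function.update_of_ne hj]
        show xor (x i) (xor (x (q + 4 * j.1)) (x (q + 4 * j.1))) = _
        rw [Bool.xor_self, Bool.xor_false]
      · rintro ⟨q', hc'⟩
        exact hj (D.cov_unique hx hc (j' := j0) hc').2
  · push Not at h
    right
    refine ⟨D.phi_neg _ h, ?_⟩
    rintro ⟨q', hc'⟩
    exact h q' j0 hc'

/-- The index `1` in a window. -/
def one (L : ℕ) (hL : 1 ≤ L) : {i : ℤ // i ∈ Finset.Icc (-(L : ℤ)) L} :=
  ⟨1, Finset.mem_Icc.2 ⟨by omega, by omega⟩⟩

/-- The datum with a single bit: the block right after the marker. -/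
def dat1 (L : ℕ) (hL : 1 ≤ L) (S : Set (W L)) (hS : ∀ w ∈ S, w (one L hL) = true) : Datum where
  L := L
  S := S
  J := {1}
  hJ j hj := by
    rw [Finset.mem_singleton] at hj
    subst hj
    exact (one L hL).2
  hb w hw j hj := by
    have hj' := Finset.mem_singleton.1 hj
    subst hj'
    exact hS w hw
  sep x _ q q' _ _ j hj j' hj' h := by
    rw [Finset.mem_singleton] at hj hj'
    subst hj
    subst hj'
    omega

/-- The index `1` as a bit. -/
def bit1 (L : ℕ) (hL : 1 ≤ L) (S : Set (W L)) (hS : ∀ w ∈ S, w (one L hL) = true) :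
    (dat1 L hL S hS).J := ⟨1, Finset.mem_singleton_self _⟩

/-- Flip the block right after the marker, when the context is in `S`. -/
noncomputable def g (L : ℕ) (hL : 1 ≤ L) (S : Set (W L)) (hS : ∀ w ∈ S, w (one L hL) = true) :
    AutGroup := (dat1 L hL S hS).Phi (flipAt (bit1 L hL S hS))

/-- `f` flips exactly the blocks right after the markers with context in `S`. -/
def IsFlip (f : AutGroup) (P : (ℤ → Bool) → ℤ → Prop) : Prop :=
  ∀ (x : Points) (i : ℤ), ((f.1 x).1 i = !(x.1 i) ∧ (∃ q, P x.1 q ∧ q + 4 ≤ i ∧ i < q + 8)) ∨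
    ((f.1 x).1 i = x.1 i ∧ ¬ ∃ q, P x.1 q ∧ q + 4 ≤ i ∧ i < q + 8)

theorem isFlip_unique {f f' : AutGroup} {P : (ℤ → Bool) → ℤ → Prop} (h : IsFlip f P)
    (h' : IsFlip f' P) : f = f' := by
  apply Subtype.ext
  apply Homeomorph.ext
  intro x
  apply Subtype.ext
  funext i
  rcases h x i with ⟨h1, h2⟩ | ⟨h1, h2⟩ <;> rcases h' x i with ⟨g1, g2⟩ | ⟨g1, g2⟩
  · rw [h1, g1]
  · exact absurd h2 g2
  · exact absurd g2 h2
  · rw [h1, g1]

theorem isFlip_congr {f : AutGroup} {P P' : (ℤ → Bool) → ℤ → Prop} (h : IsFlip f P)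
    (hP : ∀ x ∈ X, ∀ q, P x q ↔ P' x q) : IsFlip f P' := by
  intro x i
  have e : (∃ q, P x.1 q ∧ q + 4 ≤ i ∧ i < q + 8) ↔ ∃ q, P' x.1 q ∧ q + 4 ≤ i ∧ i < q + 8 := by
    constructor
    · rintro ⟨q, h1, h2⟩
      exact ⟨q, (hP _ x.2 q).1 h1, h2⟩
    · rintro ⟨q, h1, h2⟩
      exact ⟨q, (hP _ x.2 q).2 h1, h2⟩
  rw [← e]
  exact h x i

theorem isFlip_datum (D : Datum) (j0 : D.J) (hj : j0.1 = 1) :
    IsFlip (D.Phi (flipAt j0)) (fun x q => Site D.S x q) := by
  intro x i
  have := flip_apply D j0 x.2 i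
  rw [hj] at this
  have e : ∀ q : ℤ, q + 4 * 1 = q + 4 := fun q => by ring
  simp only [e, show ∀ q : ℤ, q + 4 + 4 = q + 8 from fun q => by ring] at this
  exact this

theorem isFlip_g (L : ℕ) (hL : 1 ≤ L) (S : Set (W L)) (hS : ∀ w ∈ S, w (one L hL) = true) :
    IsFlip (g L hL S hS) (fun x q => Site S x q) :=
  isFlip_datum (dat1 L hL S hS) (bit1 L hL S hS) rfl

/-- The full flip. -/
def full (L : ℕ) (hL : 1 ≤ L) : Set (W L) := {w | w (one L hL) = true}

theorem site_full (L : ℕ) (hL : 1 ≤ L) (x : ℤ → Bool) (q : ℤ) :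
    Site (full L hL) x q ↔ Mk x q ∧ tp x (q + 4) = true := by
  unfold Site full
  constructor
  · rintro ⟨h1, h2⟩
    exact ⟨h1, h2⟩
  · rintro ⟨h1, h2⟩
    exact ⟨h1, h2⟩

/-- The flip does not depend on the size of the window. -/
theorem g_full_eq (L : ℕ) (hL : 1 ≤ L) :
    g L hL (full L hL) (fun _ h => h) = g 1 le_rfl (full 1 le_rfl) (fun _ h => h) := by
  refine isFlip_unique (isFlip_g L hL _ _) ?_
  refine isFlip_congr (isFlip_g 1 le_rfl _ _) ?_
  intro x _ q
  show Site (full 1 le_rfl) x q ↔ Site (full L hL) x q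
  rw [site_full, site_full]

/-- Disjoint unions. -/
theorem g_insert (L : ℕ) (hL : 1 ≤ L) (u : W L) (S : Set (W L)) (hu : u ∉ S)
    (h1 : ∀ w ∈ ({u} : Set (W L)), w (one L hL) = true) (h2 : ∀ w ∈ S, w (one L hL) = true)
    (h3 : ∀ w ∈ insert u S, w (one L hL) = true) :
    g L hL (insert u S) h3 = g L hL {u} h1 * g L hL S h2 := by
  refine isFlip_unique (isFlip_g L hL _ _) ?_
  intro x i
  set D := dat1 L hL S h2
  have hsite : ∀ q, Site ({u} : Set (W L)) ((g L hL S h2).1 x).1 q ↔
      Site ({u} : Set (W L)) x.1 q := fun q => D.site_phi _ x.2 q _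
  have huniq : ∀ q q', Mk x.1 q → Mk x.1 q' → q + 4 ≤ i → i < q + 8 → q' + 4 ≤ i →
      i < q' + 8 → q = q' := by
    intro q q' m1 m2 a1 a2 a3 a4
    obtain ⟨t, hd⟩ := exists_dec x.2
    obtain ⟨c, hc, -⟩ := marker_align hd.1 m1
    obtain ⟨c', hc', -⟩ := marker_align hd.1 m2
    omega
  have hmul : ((g L hL {u} h1 * g L hL S h2).1 x) = (g L hL {u} h1).1 ((g L hL S h2).1 x) := rfl
  rw [hmul]
  rcases isFlip_g L hL S h2 x i with ⟨a1, q, a2, a3⟩ | ⟨a1, a2⟩
  · -- covered by a site of `S`
    rcases isFlip_g L hL {u} h1 ((g L hL S h2).1 x) i with ⟨b1, q', b2, b3⟩ | ⟨b1, b2⟩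
    · exfalso
      have b2' := (hsite q').1 b2
      have := huniq q q' a2.1 b2'.1 a3.1 a3.2 b3.1 b3.2
      subst this
      apply hu
      have : ctx L x.1 q = u := b2'.2
      rw [← this]
      exact a2.2
    · left
      rw [b1, a1]
      exact ⟨rfl, q, ⟨a2.1, Or.inr a2.2⟩, a3⟩
  · rcases isFlip_g L hL {u} h1 ((g L hL S h2).1 x) i with ⟨b1, q', b2, b3⟩ | ⟨b1, b2⟩
    · left
      rw [b1, a1]
      have b2' := (hsite q').1 b2
      exact ⟨rfl, q', ⟨b2'.1, Or.inl b2'.2⟩, b3⟩
    · right
      rw [b1, a1]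
      refine ⟨rfl, ?_⟩
      rintro ⟨q, ⟨c1, c2⟩, c3⟩
      rcases c2 with c2 | c2
      · exact b2 ⟨q, (hsite q).2 ⟨c1, c2⟩, c3⟩
      · exact a2 ⟨q, ⟨c1, c2⟩, c3⟩

theorem g_empty (L : ℕ) (hL : 1 ≤ L) (S : Set (W L)) (hS : ∀ w ∈ S, w (one L hL) = true)
    (h : ∀ x ∈ X, ∀ q, ¬ Site S x q) : g L hL S hS = 1 := by
  refine isFlip_unique (isFlip_g L hL _ _) ?_
  intro x i
  right
  refine ⟨rfl, ?_⟩
  rintro ⟨q, h1, -⟩
  exact h x.1 x.2 q h1

/-- Flips with small context die in a finite quotient. -/
theorem g_single_mem (N : Subgroup AutGroup) [N.Normal] [N.FiniteIndex] (L : ℕ) (hL : 1 ≤ L)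
    (hLn : 8 * N.index ≤ L)
    (hsep : ∀ y ∈ X, ∀ d : ℕ, 0 < d → d ≤ 8 * N.index →
      ∃ i : ℤ, -L ≤ i ∧ i ≤ L ∧ y i ≠ y (i + d)) (u : W L)
    (hu : ∀ w ∈ ({u} : Set (W L)), w (one L hL) = true) : g L hL {u} hu ∈ N := by
  by_cases hreal : ∃ x ∈ X, ∃ q, Site ({u} : Set (W L)) x q
  · obtain ⟨x, hx, q, hs⟩ := hreal
    set n := N.index with hn
    have hn0 : n ≠ 0 := Subgroup.FiniteIndex.index_ne_zero
    have hy := types_mem hx hs.1
    have hctx : ∀ (i : ℤ) (hi : i ∈ Finset.Icc (-(L : ℤ)) L), u ⟨i, hi⟩ = tp x (q + 4 * i) := by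
      intro i hi
      have : ctx L x q = u := hs.2
      rw [← this]
      rfl
    -- the bits
    let J : Finset ℤ := (Finset.Icc (1 : ℤ) (8 * n)).filter fun j => tp x (q + 4 * j) = true
    have hJmem : ∀ j ∈ J, 1 ≤ j ∧ j ≤ 8 * n ∧ tp x (q + 4 * j) = true := by
      intro j hj
      have := Finset.mem_filter.1 hj
      exact ⟨(Finset.mem_Icc.1 this.1).1, (Finset.mem_Icc.1 this.1).2, this.2⟩
    let D : Datum :=
      { L := L
        S := {u}
        J := J
        hJ := fun j hj => by
          have := hJmem j hj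
          exact Finset.mem_Icc.2 ⟨by omega, by omega⟩
        hb := fun w hw j hj => by
          have hw' : w = u := hw
          subst hw'
          rw [hctx]
          exact (hJmem j hj).2.2
        sep := by
          have key : ∀ z ∈ X, ∀ q q' : ℤ, q < q' → Site ({u} : Set (W L)) z q →
              Site ({u} : Set (W L)) z q' → ∀ j ∈ J, ∀ j' ∈ J, q + 4 * j = q' + 4 * j' →
              False := by
            intro z hz q q' hlt h1 h2 j hj j' hj' he
            have a1 := hJmem j hj
            have a2 := hJmem j' hj'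
            obtain ⟨d, hd⟩ : ∃ d : ℕ, j - j' = d := ⟨(j - j').toNat, by omega⟩
            obtain ⟨i, i1, i2, i3⟩ := hsep _ (types_mem hz h1.1) d (by omega) (by omega)
            apply i3
            have c1 : ctx L z q = u := h1.2
            have c2 : ctx L z q' = u := h2.2
            have c3 := congrFun (c1.trans c2.symm) ⟨i, Finset.mem_Icc.2 ⟨i1, i2⟩⟩
            have c4 : tp z (q + 4 * i) = tp z (q' + 4 * i) := c3
            show tp z (q + 4 * i) = tp z (q + 4 * (i + d))
            rw [c4]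
            congr 1
            omega
          intro z hz q q' h1 h2 j hj j' hj' he
          rcases lt_trichotomy q q' with h | h | h
          · exact absurd (key z hz q q' h h1 h2 j hj j' hj' he) id
          · exact h
          · exact absurd (key z hz q' q h h2 h1 j' hj' j hj he.symm) id }
    have h1J : (1 : ℤ) ∈ J := by
      refine Finset.mem_filter.2 ⟨Finset.mem_Icc.2 ⟨le_refl _, by omega⟩, ?_⟩
      have := hu u rfl
      rw [← hctx 1 (one L hL).2]
      exact this
    have heq : g L hL {u} hu = D.Phi (flipAt ⟨1, h1J⟩) :=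
      isFlip_unique (isFlip_g L hL _ _) (isFlip_datum D ⟨1, h1J⟩ rfl)
    -- counting
    have hcard : n ≤ Fintype.card D.J := by
      have hex : ∀ c : Fin n, ∃ j : ℤ, 8 * (c : ℤ) + 1 ≤ j ∧ j < 8 * (c : ℤ) + 1 + 8 ∧
          tp x (q + 4 * j) = true := fun c => exists_true hy (8 * (c : ℤ) + 1)
      choose f hf1 hf2 hf3 using hex
      have hmem : ∀ c, f c ∈ J := by
        intro c
        have := c.2
        refine Finset.mem_filter.2 ⟨Finset.mem_Icc.2 ⟨?_, ?_⟩, hf3 c⟩
        · have := hf1 c; omega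
        · have := hf2 c; omega
      have hinj : Function.Injective (fun c : Fin n => (⟨f c, hmem c⟩ : D.J)) := by
        intro c c' h
        have h' : f c = f c' := congrArg Subtype.val h
        have a1 := hf1 c
        have a2 := hf2 c
        have a3 := hf1 c'
        have a4 := hf2 c'
        apply Fin.ext
        omega
      have := Fintype.card_le_of_injective _ hinj
      rwa [Fintype.card_fin] at this
    have htriv := flipAt_trivial (J := D.J) ⟨1, h1J⟩ (Q := AutGroup ⧸ N) (by
      have : Nat.card (AutGroup ⧸ N) = n := rfl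
      rw [this]
      exact hcard) ((QuotientGroup.mk' N).comp D.Phi)
    rw [heq]
    have h2 : (QuotientGroup.mk' N) (D.Phi (flipAt ⟨1, h1J⟩)) = 1 := htriv
    rwa [← MonoidHom.mem_ker, QuotientGroup.ker_mk'] at h2
  · push Not at hreal
    rw [g_empty L hL {u} hu hreal]
    exact N.one_mem

/-- The full flip lies in every normal subgroup of finite index. -/
theorem g_full_mem (N : Subgroup AutGroup) [N.Normal] [N.FiniteIndex] :
    g 1 le_rfl (full 1 le_rfl) (fun _ h => h) ∈ N := by
  classical
  obtain ⟨L0, hL0⟩ := separation (8 * N.index)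
  set L := max (L0) (8 * N.index) + 1 with hLdef
  have hL : 1 ≤ L := by omega
  have hsep : ∀ y ∈ X, ∀ d : ℕ, 0 < d → d ≤ 8 * N.index →
      ∃ i : ℤ, -L ≤ i ∧ i ≤ L ∧ y i ≠ y (i + d) := by
    intro y hy d h1 h2
    obtain ⟨i, g1, g2, g3⟩ := hL0 y hy d h1 h2
    exact ⟨i, by omega, by omega, g3⟩
  rw [← g_full_eq L hL]
  have key : ∀ (s : Finset (W L)) (hs : ∀ w ∈ (s : Set (W L)), w (one L hL) = true),
      g L hL (s : Set (W L)) hs ∈ N := by
    intro s
    induction s using Finset.induction_on with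
    | empty =>
      intro hs
      rw [g_empty L hL _ hs]
      · exact N.one_mem
      · rintro x _ q ⟨-, h⟩
        simp at h
    | insert u s hu ih =>
      intro hs
      have hs' : ∀ w ∈ insert u (s : Set (W L)), w (one L hL) = true := by
        intro w hw
        apply hs
        rw [Finset.coe_insert]
        exact hw
      have h1 : ∀ w ∈ ({u} : Set (W L)), w (one L hL) = true := by
        intro w hw
        exact hs' w (Or.inl hw)
      have h2 : ∀ w ∈ (s : Set (W L)), w (one L hL) = true := fun w hw => hs' w (Or.inr hw)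
      have e := g_insert L hL u s (by simpa using hu) h1 h2 hs'
      have e2 : g L hL ((insert u s : Finset (W L)) : Set (W L)) hs =
          g L hL (insert u (s : Set (W L))) hs' := by
        congr 1
        exact Finset.coe_insert u s
      rw [e2, e]
      exact N.mul_mem (g_single_mem N L hL (by omega) hsep u h1) (ih h2)
  have hfin : (full L hL).Finite := Set.toFinite _
  have e : g L hL (full L hL) (fun _ h => h) =
      g L hL (hfin.toFinset : Set (W L)) (fun w h => by
        rw [Set.Finite.coe_toFinset] at h; exact h) := by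
    congr 1
    exact hfin.coe_toFinset.symm
  rw [e]
  exact key _ _

/-! ### A point moved by the full flip -/

/-- A two-sided fixed point of `a ↦ abaa`, `b ↦ abab`. -/
def toep (n : ℤ) : Bool :=
  if n % 4 = 1 then true else if h : n % 4 = 3 ∧ n ≠ -1 then toep ((n - 3) / 4) else false
termination_by n.natAbs
decreasing_by omega

theorem toep_0 (k : ℤ) : toep (4 * k) = false := by
  rw [toep, if_neg (by omega), dif_neg (by omega)]

theorem toep_1 (k : ℤ) : toep (4 * k + 1) = true := by
  rw [toep, if_pos (by omega)]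

theorem toep_2 (k : ℤ) : toep (4 * k + 2) = false := by
  rw [toep, if_neg (by omega), dif_neg (by omega)]

theorem toep_m1 : toep (-1) = false := by
  rw [toep, if_neg (by omega), dif_neg (by omega)]

theorem toep_3 (k : ℤ) : toep (4 * k + 3) = toep k := by
  by_cases h : k = -1
  · subst h
    rfl
  · rw [toep, if_neg (by omega), dif_pos (by omega)]
    congr 1
    omega

theorem toep_blk (k : ℤ) : IsBlk toep (0 + 4 * k) ∧ tp toep (0 + 4 * k) = toep k := by
  unfold IsBlk tp
  rw [zero_add, toep_0, toep_1, toep_2, toep_3]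
  cases toep k <;> decide

theorem toep_mem : toep ∈ X := by
  have htypes : (fun k : ℤ => tp toep (0 + 4 * k)) = toep := by
    funext k
    exact (toep_blk k).2
  have key : ∀ e : ℕ, Legal (window toep (-(4 ^ e : ℕ)) (2 * 4 ^ e)) := by
    intro e
    induction e with
    | zero =>
      refine ⟨1, [a, b, a, a], ?_, ?_⟩
      · refine mem_biUnion (x := [a]) rfl ?_
        exact ⟨[a, b, a, a], Or.inl rfl, [], rfl, rfl⟩
      · have h0 : toep 0 = false := toep_0 0
        have e : window toep (-(4 ^ 0 : ℕ)) (2 * 4 ^ 0) = [a, a] := by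
          simp [window, List.range_succ, toep_m1, h0]
        rw [e]
        exact ⟨[a, b], [], rfl⟩
    | succ e ih =>
      have h := window_mem_thetaWord toep 0 (fun k => (toep_blk k).1) (-(4 ^ e : ℕ)) (2 * 4 ^ e)
      rw [htypes] at h
      have := legal_image ih h
      rw [show (0 : ℤ) + 4 * (-(4 ^ e : ℕ)) = -(4 ^ (e + 1) : ℕ) by push_cast; ring,
        show 4 * (2 * 4 ^ e) = 2 * 4 ^ (e + 1) by ring] at this
      exact this
  intro i n
  set e := i.natAbs + n with he
  have hle : e < 4 ^ e := Nat.lt_pow_self (by norm_num)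
  refine legal_infix (window_infix toep (j := -(4 ^ e : ℕ)) (m := 2 * 4 ^ e) ?_ ?_) (key e)
  · omega
  · omega

/-- The point with a marker followed by a `b`-block. -/
def pt (i : ℤ) : Bool := if i = 1 then false else if i = 2 then true else toep i

theorem pt_mem : pt ∈ X := by
  apply mem_of_dec (t := 0)
  have key : ∀ k : ℤ, IsBlk pt (0 + 4 * k) ∧ tp pt (0 + 4 * k) = toep k := by
    intro k
    by_cases h : k = 0
    · subst h
      have h0 : pt 0 = false := by
        have := toep_0 0
        simpa [pt] using this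
      have h3 : pt 3 = false := by
        have h := toep_3 0
        have h' := toep_0 0
        simp only [mul_zero, zero_add] at h h'
        rw [h'] at h
        simpa [pt] using h
      have h4 : toep 0 = false := toep_0 0
      unfold IsBlk tp
      rw [h4]
      norm_num
      rw [h0, h3]
      decide
    · have e0 : pt (4 * k) = toep (4 * k) := by
        unfold pt; rw [if_neg (by omega), if_neg (by omega)]
      have e1 : pt (4 * k + 1) = toep (4 * k + 1) := by
        unfold pt; rw [if_neg (by omega), if_neg (by omega)]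
      have e2 : pt (4 * k + 2) = toep (4 * k + 2) := by
        unfold pt; rw [if_neg (by omega), if_neg (by omega)]
      have e3 : pt (4 * k + 3) = toep (4 * k + 3) := by
        unfold pt; rw [if_neg (by omega), if_neg (by omega)]
      have := toep_blk k
      unfold IsBlk tp at this ⊢
      rw [zero_add] at this ⊢
      rw [e0, e1, e2, e3]
      exact this
  refine ⟨fun k => (key k).1, ?_⟩
  have e : (fun k : ℤ => tp pt (0 + 4 * k)) = toep := by
    funext k
    exact (key k).2
  rw [e]
  exact toep_mem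

theorem g_full_ne : g 1 le_rfl (full 1 le_rfl) (fun _ h => h) ≠ 1 := by
  intro h
  have hf := isFlip_g 1 le_rfl (full 1 le_rfl) (fun _ h => h) ⟨pt, pt_mem⟩ 4
  rw [h] at hf
  rcases hf with ⟨h1, -⟩ | ⟨-, h2⟩
  · have : pt 4 = !pt 4 := h1
    cases h3 : pt 4 <;> rw [h3] at this <;> exact absurd this (by decide)
  · apply h2
    refine ⟨0, ?_, by norm_num, by norm_num⟩
    show Site (full 1 le_rfl) pt 0
    rw [site_full]
    have t0 : toep 0 = false := toep_0 0
    have tm2 : toep (-2) = false := by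
      have := toep_2 (-1)
      norm_num at this
      exact this
    have t4 : toep 4 = false := toep_0 1
    have t5 : toep 5 = true := toep_1 1
    have t6 : toep 6 = false := toep_2 1
    have t1 : toep 1 = true := toep_1 0
    have t7 : toep 7 = true := by
      have := toep_3 1
      rw [t1] at this
      exact this
    refine ⟨⟨?_, ?_, ?_, ?_⟩, ?_⟩
    · simp [pt, tm2]
    · simp [pt, toep_m1]
    · simp [pt, t0]
    · simp [pt]
    · unfold tp
      norm_num
      simp [pt, t4, t5, t6, t7]
      decide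

/-- There is a nontrivial automorphism in all subgroups of finite index. -/
theorem main : ∃ f : AutGroup, f ≠ 1 ∧ ∀ H : Subgroup AutGroup, H.FiniteIndex → f ∈ H := by
  refine ⟨_, g_full_ne, fun H hH => ?_⟩
  have := hH
  exact H.normalCore_le (g_full_mem H.normalCore)

theorem not_residuallyFinite : ¬ Group.ResiduallyFinite AutGroup := by
  intro h
  obtain ⟨f, hf, hall⟩ := main
  apply hf
  rw [Group.residuallyFinite_iff_forall_finiteIndexNormalSubgroup] at h
  exact h f fun H => hall H.toSubgroup H.isFiniteIndex'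

end Q78.RSA
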